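import Mathlib

open MeasureTheory Measure ProbabilityTheory Filter Topology Set
open scoped ENNReal goldenRatio

namespace Pool.Agent.Results.MP_357d86_pr.Lorenz

/-- joint distribution function -/
noncomputable def D (μ : Measure (ℝ × ℝ)) (x y : ℝ) : ℝ := μ.real (Iic x ×ˢ Iic y)

/-- `{u | u ≤ F⁻¹(x)}` for the distribution function `F` of `ν`, with `F⁻¹(x) = inf {y | x ≤ F y}` in `[-∞, ∞]` -/
def Q (ν : Measure ℝ) (x : ℝ) : Set ℝ := lowerBounds {y | x ≤ cdf ν y}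

/-- the bivariate Lorenz curve of the law `μ` -/
noncomputable def Lor (μ : Measure (ℝ × ℝ)) (x y : ℝ) : ℝ :=
  (∫ u in Q μ.fst x ×ˢ Q μ.snd y, u.1 * u.2 ∂μ) / ∫ u, u.1 * u.2 ∂μ

lemma lev (ν : Measure ℝ) [IsProbabilityMeasure ν] [NullSingletonClass ν] (c : ℝ) : ∀ᵐ u ∂ν, cdf ν u ≠ c := by
  have m : MeasurableSet {u | cdf ν u = c} := (monotone_cdf ν).measurable (.singleton c)
  simp only [ae_iff, not_not]
  rw [m.measure_eq_iSup_isCompact]
  simp only [ENNReal.iSup_eq_zero]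
  intro K h1 h2
  rcases K.eq_empty_or_nonempty with rfl | e
  · simp
  refine measure_mono_null h2.isBounded.subset_Icc_sInf_sSup ?_
  rw [← measure_congr Ioc_ae_eq_Icc, ← measure_cdf ν, StieltjesFunction.measure_Ioc, h1 (h2.sInf_mem e),
    h1 (h2.sSup_mem e)]
  simp

lemma qu (ν : Measure ℝ) [IsProbabilityMeasure ν] [NullSingletonClass ν] (x : ℝ) : ∀ᵐ u ∂ν, u ∈ Q ν x ↔ cdf ν u ≤ x := by
  filter_upwards [lev ν x, (show ∀ᵐ u ∂ν, u ≠ sInf {y | x ≤ cdf ν y} by simp [ae_iff])] with u h1 h2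
  refine ⟨fun h => not_lt.1 fun c => h2 (IsLeast.csInf_eq (a := u) (s := {y | x ≤ cdf ν y}) ⟨c.le, h⟩).symm, fun h y hy => not_lt.1 fun c => ?_⟩
  exact h1 (h.antisymm (hy.trans (monotone_cdf ν c.le)))

lemma th (ν : Measure ℝ) [IsProbabilityMeasure ν] [NullSingletonClass ν] (b : ℝ) : ∀ᵐ u ∂ν, cdf ν u ≤ cdf ν b ↔ u ≤ b := by
  filter_upwards [lev ν (cdf ν b)] with u h
  exact ⟨fun c => not_lt.1 fun e => h (c.antisymm (monotone_cdf ν e.le)), fun c => monotone_cdf ν c⟩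

noncomputable def tilt (μ : Measure (ℝ × ℝ)) : Measure (ℝ × ℝ) :=
  μ.withDensity fun u => .ofReal (u.1 * u.2 / ∫ u, u.1 * u.2 ∂μ)
noncomputable def T (μ : Measure (ℝ × ℝ)) (u : ℝ × ℝ) : ℝ × ℝ := (cdf μ.fst u.1, cdf μ.snd u.2)
lemma mT (μ) : Measurable (T μ) :=
  ((monotone_cdf _).measurable.comp measurable_fst).prodMk ((monotone_cdf _).measurable.comp measurable_snd)

structure Inv (μ : Measure (ℝ × ℝ)) (b : ℕ → ℝ) : Prop where
  p : IsProbabilityMeasure μ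
  a1 : NullSingletonClass μ.fst
  a2 : NullSingletonClass μ.snd
  s : ∀ᵐ u ∂μ, u ∈ Ioc 0 1 ×ˢ Ioc 0 1
  e : ∀ k, ∀ᵐ u ∂μ, u.1 ≤ b k ↔ u.2 ≤ b k
  x : ∀ᵐ u ∂μ, ∀ᶠ k in atTop, u.1 ≤ b k

section
variable {μ : Measure (ℝ × ℝ)} {b : ℕ → ℝ} (H : Inv μ b)
include H
lemma Inv.int : Integrable (fun u : ℝ × ℝ => u.1 * u.2) μ := by
  have := H.p
  exact .of_bound (by fun_prop) 1 (H.s.mono fun u h => by
    rw [Real.norm_of_nonneg (mul_pos h.1.1 h.2.1).le]; exact mul_le_one₀ h.1.2 h.2.1.le h.2.2)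
lemma Inv.pos : 0 < ∫ u, u.1 * u.2 ∂μ := by
  have := H.p
  rw [integral_pos_iff_support_of_nonneg_ae (H.s.mono fun u h => (mul_pos h.1.1 h.2.1).le) H.int]
  exact ((prob_compl_eq_zero_iff (measurableSet_Ioc.prod measurableSet_Ioc)).1 H.s ▸ zero_lt_one).trans_le
    (measure_mono fun u h => (mul_pos h.1.1 h.2.1).ne')
lemma Inv.tr {S} (hS : MeasurableSet S) : (tilt μ).real S = (∫ u in S, u.1 * u.2 ∂μ) / ∫ u, u.1 * u.2 ∂μ := by
  rw [Measure.real, tilt, withDensity_apply _ hS, ← ofReal_integral_eq_lintegral_ofReal (H.int.div_const _).restrict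
    (ae_restrict_of_ae (H.s.mono fun u h => (div_pos (mul_pos h.1.1 h.2.1) H.pos).le)), integral_div,
    ENNReal.toReal_ofReal (div_nonneg (integral_nonneg_of_ae (ae_restrict_of_ae
      (H.s.mono fun u h => (mul_pos h.1.1 h.2.1).le))) H.pos.le)]
lemma Inv.tp : IsProbabilityMeasure (tilt μ) := ⟨by
  have := H.tr .univ
  rwa [restrict_univ, div_self H.pos.ne', Measure.real, ENNReal.toReal_eq_one_iff] at this⟩
omit H in
lemma ae1 {p : ℝ → Prop} (h : ∀ᵐ u ∂μ.fst, p u) : ∀ᵐ u ∂μ, p u.1 := ae_of_ae_map measurable_fst.aemeasurable h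
omit H in
lemma ae2 {p : ℝ → Prop} (h : ∀ᵐ u ∂μ.snd, p u) : ∀ᵐ u ∂μ, p u.2 := ae_of_ae_map measurable_snd.aemeasurable h
omit H in
lemma ac : tilt μ ≪ μ := withDensity_absolutelyContinuous _ _
omit H in
lemma cd [IsProbabilityMeasure μ] (x) : cdf μ.fst x = μ.real (Prod.fst ⁻¹' Iic x) := by
  rw [cdf_eq_real, Measure.real, fst_apply measurableSet_Iic]; rfl

lemma Inv.step : Inv ((tilt μ).map (T μ)) fun k => cdf μ.fst (b k) := by
  obtain ⟨p, a1, a2, -⟩ := id H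
  have := H.tp
  have up : ∀ {p : ℝ × ℝ → Prop}, MeasurableSet {u | p u} → (∀ᵐ u ∂μ, p (T μ u)) → ∀ᵐ u ∂(tilt μ).map (T μ), p u :=
    fun hp h => (ae_map_iff (mT μ).aemeasurable hp).2 (ac.ae_le h)
  refine ⟨isProbabilityMeasure_map (mT μ).aemeasurable, ⟨fun c => ?_⟩, ⟨fun c => ?_⟩,
    up (measurableSet_Ioc.prod measurableSet_Ioc) ?_, fun k => up (by measurability) ?_, up (by measurability) ?_⟩
  · rw [fst_apply (.singleton c)]
    exact measure_eq_zero_iff_ae_notMem.2 (up (by measurability) (ae1 (lev μ.fst c)))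
  · rw [snd_apply (.singleton c)]
    exact measure_eq_zero_iff_ae_notMem.2 (up (by measurability) (ae2 (lev μ.snd c)))
  · filter_upwards [ae1 (lev μ.fst 0), ae2 (lev μ.snd 0)] with u h1 h2
    exact ⟨⟨(cdf_nonneg _ _).lt_of_ne' h1, cdf_le_one _ _⟩, (cdf_nonneg _ _).lt_of_ne' h2, cdf_le_one _ _⟩
  · have e : cdf μ.fst (b k) = cdf μ.snd (b k) := by
      rw [cd, cdf_eq_real, Measure.real, Measure.real, snd_apply measurableSet_Iic]
      exact congrArg _ (measure_congr ((H.e k).mono fun u h => propext h))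
    filter_upwards [ae1 (th μ.fst (b k)), ae2 (th μ.snd (b k)), H.e k] with u h1 h2 h3
    exact h1.trans (h3.trans (e ▸ h2.symm))
  · exact H.x.mono fun u h => h.mono fun k h => monotone_cdf _ h

lemma Inv.lor (x y : ℝ) : D ((tilt μ).map (T μ)) x y = Lor μ x y := by
  obtain ⟨p, a1, a2, -⟩ := id H
  rw [D, map_measureReal_apply (mT μ) (measurableSet_Iic.prod measurableSet_Iic),
    H.tr (mT μ (measurableSet_Iic.prod measurableSet_Iic)), Lor]
  congr 1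
  refine setIntegral_congr_set ?_
  filter_upwards [ae1 (qu μ.fst x), ae2 (qu μ.snd y)] with u h1 h2
  exact propext (and_congr h1.symm h2.symm)

lemma Inv.dec (k : ℕ) : cdf ((tilt μ).map (T μ)).fst (cdf μ.fst (b k)) ≤ cdf μ.fst (b k) := by
  obtain ⟨p, a1, a2, -⟩ := id H
  have := H.step.p
  have m : MeasurableSet (Prod.fst ⁻¹' Iic (b k) : Set (ℝ × ℝ)) := measurable_fst measurableSet_Iic
  rw [cd, map_measureReal_apply (mT μ) (measurable_fst measurableSet_Iic), measureReal_congr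
    (s := T μ ⁻¹' (Prod.fst ⁻¹' Iic (cdf μ.fst (b k)))) (t := Prod.fst ⁻¹' Iic (b k)) (ac.ae_le ((ae1 (th μ.fst (b k))).mono fun u h => propext h)), cd, H.tr m, div_le_iff₀ H.pos, ← integral_add_compl m H.int]
  have u : ∫ u in Prod.fst ⁻¹' Iic (b k), u.1 * u.2 ∂μ ≤ ∫ u in Prod.fst ⁻¹' Iic (b k), max (b k) 0 ^ 2 ∂μ :=
    setIntegral_mono_on_ae H.int.integrableOn (by simp) m (by
      filter_upwards [H.s, H.e k] with u h1 h2 h3
      rw [sq]; exact mul_le_mul (le_max_of_le_left h3) (le_max_of_le_left (h2.1 h3)) h1.2.1.le (by positivity))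
  have v : ∫ u in (Prod.fst ⁻¹' Iic (b k))ᶜ, max (b k) 0 ^ 2 ∂μ ≤ ∫ u in (Prod.fst ⁻¹' Iic (b k))ᶜ, u.1 * u.2 ∂μ :=
    setIntegral_mono_on_ae (by simp) H.int.integrableOn m.compl (by
      filter_upwards [H.s, H.e k] with u h1 h2 h3
      replace h3 : ¬u.1 ≤ b k := h3
      rw [sq]
      exact mul_le_mul (max_le (not_le.1 h3).le h1.1.1.le) (max_le (not_le.1 (mt h2.2 h3)).le h1.2.1.le)
        (by positivity) h1.1.1.le)
  rw [setIntegral_const, smul_eq_mul] at u v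
  rw [probReal_compl_eq_one_sub m] at v
  have a : 0 ≤ μ.real (Prod.fst ⁻¹' Iic (b k)) := measureReal_nonneg
  have c : μ.real (Prod.fst ⁻¹' Iic (b k)) ≤ 1 := measureReal_le_one
  nlinarith [mul_le_mul_of_nonneg_left u (sub_nonneg.2 c), mul_le_mul_of_nonneg_left v a]

lemma Inv.d (k : ℕ) : D μ (b k) 1 = cdf μ.fst (b k) ∧ D μ 1 (b k) = cdf μ.fst (b k) ∧
    D μ (b k) (b k) = cdf μ.fst (b k) := by
  have := H.p
  simp only [D, cd]
  refine ⟨?_, ?_, ?_⟩ <;> refine measureReal_congr ?_ <;> filter_upwards [H.s, H.e k] with u h1 h2 <;>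
    refine propext ?_
  exacts [and_iff_left h1.2.2, (and_iff_right h1.1.2).trans h2.symm, ⟨fun h => h.1, fun h => ⟨h, h2.1 h⟩⟩]

lemma Inv.big : ∃ k, 4 / 5 < cdf μ.fst (b k) := by
  have := H.p
  have := tendsto_integral_filter_of_dominated_convergence (μ := μ) (l := atTop)
    (F := fun k => (Prod.fst ⁻¹' Iic (b k)).indicator 1) (f := fun _ => (1 : ℝ)) (fun _ => 1)
    (.of_forall fun k => (measurable_one.indicator (measurable_fst measurableSet_Iic)).aestronglyMeasurable)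
    (.of_forall fun k => .of_forall fun u => (norm_indicator_le_norm_self _ _).trans (by simp)) (by simp)
    (H.x.mono fun u h => tendsto_const_nhds.congr' (h.mono fun k h => by simp [h]))
  simp only [integral_indicator_one (measurable_fst measurableSet_Iic), ← cd] at this
  exact (this.eventually_const_lt (by simp; norm_num)).exists
end

noncomputable def t (k : ℕ) : ℝ := 1 - 2⁻¹ ^ k
def J (k : ℕ) : Set ℝ := Ioc (t k) (t (k + 1))
noncomputable def μ0 : Measure (ℝ × ℝ) := sum fun k => (2 : ℝ≥0∞) ^ (k + 1) • volume.restrict (J k ×ˢ J k)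
lemma tm : Monotone t := fun _ _ h => sub_le_sub_left (pow_le_pow_of_le_one (by norm_num) (by norm_num) h) _
lemma blk (k : ℕ) : ((2 : ℝ≥0∞) ^ (k + 1) • volume.restrict (J k ×ˢ J k)) univ = 2⁻¹ ^ (k + 1) := by
  have : volume (J k) = 2⁻¹ ^ (k + 1) := by
    rw [J, Real.volume_Ioc, ← ENNReal.ofReal_ofNat, ← ENNReal.ofReal_inv_of_pos two_pos,
      ← ENNReal.ofReal_pow (by norm_num)]
    congr 1; simp only [t]; ring
  simp [volume_eq_prod, this, ← mul_assoc, ← mul_pow, ENNReal.mul_inv_cancel]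
lemma ac0 : μ0 ≪ volume :=
  absolutelyContinuous_sum_left fun _ => (restrict_le_self.absolutelyContinuous).smul_left _
lemma ae0 : ∀ᵐ u ∂μ0, ∃ k, u ∈ J k ×ˢ J k := ae_sum_iff.2 fun k =>
  ae_smul_measure ((ae_restrict_mem (measurableSet_Ioc.prod measurableSet_Ioc)).mono fun _ h => ⟨k, h⟩) _
lemma inv0 : Inv μ0 t := by
  have a : ∀ k u, u ∈ J k → u ∈ Ioc (0 : ℝ) 1 ∧ ∀ j, u ≤ t j ↔ k < j := fun k u h =>
    ⟨⟨((tm k.zero_le).trans' (by simp [t])).trans_lt h.1, h.2.trans (sub_le_self _ (by positivity))⟩,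
      fun j => ⟨fun c => not_le.1 fun e => (h.1.trans_le c).not_ge (tm e), fun c => h.2.trans (tm c)⟩⟩
  refine ⟨⟨?_⟩, ⟨fun c => ?_⟩, ⟨fun c => ?_⟩, ae0.mono fun u ⟨k, h⟩ => ⟨(a k _ h.1).1, (a k _ h.2).1⟩,
    fun j => ae0.mono fun u ⟨k, h⟩ => ((a k _ h.1).2 j).trans ((a k _ h.2).2 j).symm,
    ae0.mono fun u ⟨k, h⟩ => (eventually_gt_atTop k).mono fun j c => ((a k _ h.1).2 j).2 c⟩
  · simp only [μ0, Measure.sum_apply _ .univ, blk]
    simp only [pow_succ, ENNReal.tsum_mul_right, ENNReal.tsum_geometric_two]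
    exact ENNReal.mul_inv_cancel (by simp) (by simp)
  · rw [fst_apply (.singleton c)]; exact ac0 (by simp [volume_eq_prod, ← prod_univ])
  · rw [snd_apply (.singleton c)]; exact ac0 (by simp [volume_eq_prod, ← univ_prod])
lemma lt0 (k : ℕ) : cdf μ0.fst (t k) < 1 := by
  have := inv0.p
  have m : MeasurableSet (Prod.fst ⁻¹' Iic (t k) : Set (ℝ × ℝ)) := measurable_fst measurableSet_Iic
  rw [cd, ← sub_pos, ← probReal_compl_eq_one_sub m]
  refine ENNReal.toReal_pos (ne_of_gt (lt_of_lt_of_le ?_ (le_sum _ k _))) (measure_ne_top _ _)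
  have := blk k
  rw [Measure.smul_apply, restrict_apply_univ] at this
  rw [Measure.smul_apply, restrict_apply m.compl, inter_eq_right.2 (show J k ×ˢ J k ⊆ (Prod.fst ⁻¹' Iic (t k))ᶜ from
    fun u h => not_le.2 h.1.1), this]
  exact ENNReal.pow_pos (by simp) _

noncomputable def S : ℕ → Measure (ℝ × ℝ) × (ℕ → ℝ)
  | 0 => (μ0, t)
  | n + 1 => ((tilt (S n).1).map (T (S n).1), fun k => cdf (S n).1.fst ((S n).2 k))
lemma iS : ∀ n, Inv (S n).1 (S n).2
  | 0 => inv0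
  | n + 1 => (iS n).step

theorem result : ∃ μ : ℕ → Measure (ℝ × ℝ), (∀ n, IsProbabilityMeasure (μ n)) ∧ μ 0 ≪ volume ∧
    (∀ n, ∀ᵐ u ∂μ n, u ∈ Ioc 0 1 ×ˢ Ioc 0 1) ∧
    (∀ n, ∀ x ∈ Icc (0 : ℝ) 1, ∀ y ∈ Icc (0 : ℝ) 1, D (μ (n + 1)) x y = Lor (μ n) x y) ∧
    ¬(TendstoUniformlyOn (fun n x => D (μ (n + 1)) x 1) (· ^ φ) atTop (Icc 0 1) ∧
      TendstoUniformlyOn (fun n (p : ℝ × ℝ) => D (μ (n + 1)) p.1 p.2 - D (μ (n + 1)) p.1 1 * D (μ (n + 1)) 1 p.2)
        0 atTop (Icc 0 1 ×ˢ Icc 0 1)) := by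
  refine ⟨fun n => (S n).1, fun n => (iS n).p, ac0, fun n => (iS n).s, fun n x _ y _ => (iS n).lor x y, fun ⟨h1, h2⟩ => ?_⟩
  have r : ∀ n k, (S (n + 1)).2 k ∈ Icc (0 : ℝ) 1 := fun n k => ⟨cdf_nonneg _ _, cdf_le_one _ _⟩
  rw [Metric.tendstoUniformlyOn_iff] at h1 h2
  have g : ∀ ε > 0, ∀ᶠ n in atTop, ∀ k, (S (n + 2)).2 k * (1 - (S (n + 2)).2 k) < ε := fun ε e =>
    (h2 ε e).mono fun n h k => by
      have := h (_, _) ⟨r n k, r n k⟩
      obtain ⟨a, b, c⟩ := (iS (n + 1)).d k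
      simp only [a, b, c, Pi.zero_apply, dist_zero_left, Real.norm_eq_abs] at this
      exact lt_of_eq_of_lt (by simp only [S]; ring) (abs_lt.1 this).2
  obtain ⟨N, hN⟩ := eventually_atTop.1 ((h1 _ (by norm_num : (0 : ℝ) < 1 / 10)).and (g (1 / 10) (by norm_num)))
  obtain ⟨k, hk⟩ := (iS N).big
  have lo : ∀ n ≥ N, 4 / 5 < (S (n + 1)).2 k := fun n hn => by
    induction n, hn using Nat.le_induction with
    | base => exact hk
    | succ n hn ih =>
      have a := (hN n hn).1 _ (r n k)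
      rw [((iS (n + 1)).d k).1, Real.dist_eq] at a
      have b : (S (n + 1)).2 k ^ (2 : ℝ) ≤ (S (n + 1)).2 k ^ φ :=
        Real.rpow_le_rpow_of_exponent_ge (by linarith) (r n k).2 Real.goldenRatio_lt_two.le
      rw [Real.rpow_two] at b
      have c := (hN n hn).2 k
      have a : (S (n + 1)).2 k ^ φ - (S (n + 2)).2 k < 1 / 10 := (abs_lt.1 a).2
      have d : 1 / 2 < (S (n + 2)).2 k := by nlinarith
      by_contra! e
      nlinarith [mul_nonneg (sub_nonneg.2 e) (sub_pos.2 d).le]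
  have up : ∀ n, (S (n + 1)).2 k ≤ cdf μ0.fst (t k) := fun n => by
    induction n with
    | zero => rfl
    | succ n ih => exact ((iS n).dec k).trans ih
  have := lt0 k
  obtain ⟨n, a, b⟩ := ((g (4 / 5 * (1 - cdf μ0.fst (t k))) (by linarith)).and (eventually_ge_atTop N)).exists
  nlinarith [a k, lo (n + 1) (by omega), up (n + 1), (r (n + 1) k).2]

end Pool.Agent.Results.MP_357d86_pr.Lorenz
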